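import Pool.Agent.Lib_helper57.QI.EDefs

/-!
# Basic lemmas for module E : the plane and the stabiliser of the base vertex
-/

set_option autoImplicit false

namespace H57.QI

variable {H : Type} [Group H]

namespace Geo

variable (D : Geo H)

/-! ### the plane -/

theorem e_one : D.e 1 = 0 := by
  have := D.e_mul 1 1
  simp at this
  exact this

theorem e_inv (g : H) : D.e g⁻¹ = - D.e g := by
  have := D.e_mul g⁻¹ g
  rw [inv_mul_cancel, D.e_one] at this
  omega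

theorem e_pow (g : H) (n : ℕ) : D.e (g ^ n) = n * D.e g := by
  induction n with
  | zero => simp [D.e_one]
  | succ n ih => rw [pow_succ, D.e_mul, ih]; push_cast; ring

theorem e_zpow (g : H) (n : ℤ) : D.e (g ^ n) = n * D.e g := by
  cases n with
  | ofNat n => rw [Int.ofNat_eq_natCast, zpow_natCast, D.e_pow]
  | negSucc n => rw [zpow_negSucc, D.e_inv, D.e_pow, Int.negSucc_eq]; push_cast; ring

theorem al_ne_zero : D.al ≠ 0 := by
  intro h
  have := D.al_norm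
  rw [h, norm_zero] at this
  exact zero_ne_one this

theorem norm_al_zpow (n : ℤ) : ‖D.al ^ n‖ = 1 := by
  rw [norm_zpow, D.al_norm, one_zpow]

theorem al_zpow_ne_one {n : ℤ} (h : n ≠ 0) : D.al ^ n ≠ 1 := by
  intro h1
  rcases lt_or_gt_of_ne h with h2 | h2
  · refine D.al_ne (-n).toNat (by omega) ?_
    have h3 : D.al ^ (-n) = 1 := by rw [zpow_neg, h1, inv_one]
    rw [← zpow_natCast, Int.toNat_of_nonneg (by omega)]
    exact h3
  · refine D.al_ne n.toNat (by omega) ?_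
    rw [← zpow_natCast, Int.toNat_of_nonneg (by omega)]
    exact h1

theorem al_zpow_inj {m n : ℤ} (h : D.al ^ m = D.al ^ n) : m = n := by
  by_contra hne
  apply D.al_zpow_ne_one (sub_ne_zero.2 hne)
  rw [zpow_sub₀ D.al_ne_zero, h, div_self (zpow_ne_zero _ D.al_ne_zero)]

/-- powers of `al ^ h` come arbitrarily close to `1` -/
theorem al_close (h : ℤ) (ε : ℝ) (hε : 0 < ε) : ∃ n : ℕ, 0 < n ∧ ‖D.al ^ (n * h) - 1‖ ≤ ε := by
  have hmem : ∀ k : ℕ, D.al ^ ((k : ℤ) * h) ∈ Metric.closedBall (0 : ℂ) 1 := by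
    intro k
    rw [mem_closedBall_zero_iff, D.norm_al_zpow]
  obtain ⟨z, -, φ, hφ, hz⟩ := (isCompact_closedBall (0 : ℂ) 1).tendsto_subseq hmem
  have hc := hz.cauchySeq
  rw [Metric.cauchySeq_iff'] at hc
  obtain ⟨N, hN⟩ := hc ε hε
  have h1 := hN (N + 1) (Nat.le_succ N)
  have h2 : φ N < φ (N + 1) := hφ (Nat.lt_succ_self N)
  refine ⟨φ (N + 1) - φ N, by omega, ?_⟩
  rw [dist_eq_norm] at h1
  simp only [Function.comp_apply] at h1
  have h3 : D.al ^ (((φ (N + 1) - φ N : ℕ) : ℤ) * h) - 1 =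
      (D.al ^ ((φ N : ℤ) * h))⁻¹ * (D.al ^ ((φ (N + 1) : ℤ) * h) - D.al ^ ((φ N : ℤ) * h)) := by
    rw [mul_sub, inv_mul_cancel₀ (zpow_ne_zero _ D.al_ne_zero), ← zpow_neg,
      ← zpow_add₀ D.al_ne_zero]
    congr 2
    rw [Nat.cast_sub h2.le]
    ring
  rw [h3, norm_mul, norm_inv, D.norm_al_zpow, inv_one, one_mul]
  exact h1.le

theorem x_one : D.x 1 = 0 := by
  have := D.x_mul 1 1
  rw [mul_one, D.e_one, zpow_zero, one_mul] at this
  simpa using this

theorem x_inv (g : H) : D.x g⁻¹ = - (D.al ^ (- D.e g) * D.x g) := by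
  have := D.x_mul g⁻¹ g
  rw [inv_mul_cancel, D.x_one, D.e_inv] at this
  exact eq_neg_of_add_eq_zero_left this.symm

theorem x_inv_mul (g h : H) : D.x (g⁻¹ * h) = D.al ^ (- D.e g) * (D.x h - D.x g) := by
  rw [D.x_mul, D.x_inv, D.e_inv]
  ring

theorem x_conj (g a : H) :
    D.x (g⁻¹ * a * g) = D.al ^ (- D.e g) * (D.x a + (D.al ^ (D.e a) - 1) * D.x g) := by
  rw [mul_assoc, D.x_inv_mul, D.x_mul]
  ring

theorem N_nonneg (g : H) : 0 ≤ D.N g := by
  unfold N
  positivity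

theorem N_one : D.N 1 = 0 := by
  unfold N
  rw [D.x_one, D.L_one]
  simp

theorem N_inv (g : H) : D.N g⁻¹ = D.N g := by
  unfold N
  rw [D.x_inv, D.L_inv, norm_neg, norm_mul, D.norm_al_zpow, one_mul]

theorem N_mul (g h : H) : D.N (g * h) ≤ D.N g + D.N h := by
  unfold N
  have h1 : ‖D.x (g * h)‖ ≤ ‖D.x g‖ + ‖D.x h‖ := by
    rw [D.x_mul]
    refine (norm_add_le _ _).trans ?_
    rw [norm_mul, D.norm_al_zpow, one_mul]
  have h2 : (D.L (g * h) : ℝ) ≤ D.L g + D.L h := by exact_mod_cast D.L_mul g h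
  linarith

theorem norm_x_le_N (g : H) : ‖D.x g‖ ≤ D.N g := by
  unfold N
  have : (0 : ℝ) ≤ D.L g := Nat.cast_nonneg _
  linarith

theorem L_le_N (g : H) : (D.L g : ℝ) ≤ D.N g := by
  unfold N
  have := norm_nonneg (D.x g)
  linarith

theorem act_one (z : ℂ) : D.act 1 z = z := by
  rw [act, D.x_one, D.e_one, zpow_zero, one_mul, zero_add]

theorem act_mul (g h : H) (z : ℂ) : D.act (g * h) z = D.act g (D.act h z) := by
  rw [act, act, act, D.x_mul, D.e_mul, zpow_add₀ D.al_ne_zero]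
  ring

theorem act_inv_act (g : H) (z : ℂ) : D.act g⁻¹ (D.act g z) = z := by
  rw [← D.act_mul, inv_mul_cancel, D.act_one]

theorem act_act_inv (g : H) (z : ℂ) : D.act g (D.act g⁻¹ z) = z := by
  rw [← D.act_mul, mul_inv_cancel, D.act_one]

theorem one_sub_ne {g : H} (h : D.e g ≠ 0) : 1 - D.al ^ (D.e g) ≠ 0 :=
  sub_ne_zero.2 (D.al_zpow_ne_one h).symm

theorem act_cen {g : H} (h : D.e g ≠ 0) : D.act g (D.cen g) = D.cen g := by
  have := D.one_sub_ne h
  rw [act, cen]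
  field_simp
  ring

theorem eq_cen {g : H} (h : D.e g ≠ 0) {z : ℂ} (hz : D.act g z = z) : z = D.cen g := by
  have := D.one_sub_ne h
  rw [cen, eq_div_iff this]
  rw [act] at hz
  linear_combination -hz

/-- `act g z - act g w = al ^ e g * (z - w)` -/
theorem act_sub (g : H) (z w : ℂ) : D.act g z - D.act g w = D.al ^ (D.e g) * (z - w) := by
  rw [act, act]
  ring

theorem x_eq_cen {g : H} (h : D.e g ≠ 0) : D.x g = (1 - D.al ^ (D.e g)) * D.cen g := by
  rw [cen, mul_div_cancel₀ _ (D.one_sub_ne h)]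

theorem act_zpow_fix {g : H} {z : ℂ} (hz : D.act g z = z) (n : ℤ) : D.act (g ^ n) z = z := by
  have hn : ∀ n : ℕ, D.act (g ^ n) z = z := by
    intro n
    induction n with
    | zero => rw [pow_zero, D.act_one]
    | succ n ih => rw [pow_succ, D.act_mul, hz, ih]
  cases n with
  | ofNat n => rw [Int.ofNat_eq_natCast, zpow_natCast, hn]
  | negSucc n =>
    rw [zpow_negSucc]
    conv_lhs => rw [← hn (n + 1)]
    rw [D.act_inv_act]

theorem cen_zpow {g : H} (h : D.e g ≠ 0) {n : ℤ} (hn : n ≠ 0) : D.cen (g ^ n) = D.cen g := by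
  symm
  apply D.eq_cen
  · rw [D.e_zpow]
    exact mul_ne_zero hn h
  · exact D.act_zpow_fix (D.act_cen h) n

/-- the powers of a rotation move the origin a bounded amount -/
theorem norm_x_zpow_le {g : H} (h : D.e g ≠ 0) (n : ℤ) : ‖D.x (g ^ n)‖ ≤ 2 * ‖D.cen g‖ := by
  rcases eq_or_ne n 0 with rfl | hn
  · rw [zpow_zero, D.x_one, norm_zero]
    positivity
  · have h1 : D.e (g ^ n) ≠ 0 := by
      rw [D.e_zpow]
      exact mul_ne_zero hn h
    rw [D.x_eq_cen h1, D.cen_zpow h hn, norm_mul]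
    refine mul_le_mul_of_nonneg_right ?_ (norm_nonneg _)
    refine (norm_sub_le _ _).trans ?_
    rw [D.norm_al_zpow, norm_one]
    norm_num

theorem norm_x_pow_le {g : H} (h : D.e g ≠ 0) (n : ℕ) : ‖D.x (g ^ n)‖ ≤ 2 * ‖D.cen g‖ := by
  rw [← zpow_natCast]
  exact D.norm_x_zpow_le h n

/-! ### the stabiliser `P = {L = 0}` -/

theorem e_of_L0 {p : H} (h : D.L p = 0) : D.e p = 0 := by
  have := D.e_le p
  rw [h] at this
  simpa using this

theorem L0_mul {p q : H} (h : D.L p = 0) (h' : D.L q = 0) : D.L (p * q) = 0 := by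
  have := D.L_mul p q
  omega

theorem L0_inv {p : H} (h : D.L p = 0) : D.L p⁻¹ = 0 := by
  rw [D.L_inv, h]

theorem L0_pow {p : H} (h : D.L p = 0) (n : ℕ) : D.L (p ^ n) = 0 := by
  induction n with
  | zero => rw [pow_zero, D.L_one]
  | succ n ih => rw [pow_succ]; exact D.L0_mul ih h

theorem L_P_mul {p : H} (h : D.L p = 0) (g : H) : D.L (p * g) = D.L g := by
  have h1 := D.L_mul p g
  have h2 := D.L_mul p⁻¹ (p * g)
  rw [inv_mul_cancel_left, D.L_inv] at h2
  omega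

theorem L_mul_P {p : H} (h : D.L p = 0) (g : H) : D.L (g * p) = D.L g := by
  have h1 := D.L_mul g p
  have h2 := D.L_mul (g * p) p⁻¹
  rw [mul_inv_cancel_right, D.L_inv] at h2
  omega

theorem x_P_mul {p : H} (h : D.L p = 0) (g : H) : D.x (p * g) = D.x p + D.x g := by
  rw [D.x_mul, D.e_of_L0 h, zpow_zero, one_mul]

theorem x_P_pow {p : H} (h : D.L p = 0) (n : ℕ) : D.x (p ^ n) = n * D.x p := by
  induction n with
  | zero => rw [pow_zero, D.x_one]; simp
  | succ n ih => rw [pow_succ', D.x_P_mul h, ih]; push_cast; ring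

theorem P_ext {p q : H} (h : D.L p = 0) (h' : D.L q = 0) (hx : D.x p = D.x q) : p = q := by
  have h1 : p⁻¹ * q = 1 := by
    apply D.P_inj _ (D.L0_mul (D.L0_inv h) h')
    rw [D.x_inv_mul, hx, sub_self, mul_zero]
  exact (inv_mul_eq_one.1 h1)

theorem P_comm {p q : H} (h : D.L p = 0) (h' : D.L q = 0) : p * q = q * p := by
  apply D.P_ext (D.L0_mul h h') (D.L0_mul h' h)
  rw [D.x_P_mul h, D.x_P_mul h', add_comm]

theorem x_conj_P {p : H} (h : D.L p = 0) (g : H) :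
    D.x (g⁻¹ * p * g) = D.al ^ (- D.e g) * D.x p := by
  rw [D.x_conj, D.e_of_L0 h, zpow_zero, sub_self, zero_mul, add_zero]

theorem two_al_step {e : ℤ} (he : e = 1 ∨ e = -1) {z : ℂ} (hz : z ∈ D.O) :
    2 * D.al ^ e * z ∈ D.O := by
  obtain ⟨h, h1, h2, -⟩ := D.up_ext 1 1
  obtain ⟨p, hp, hpx⟩ := D.P_surj (2 * z) (by rw [two_mul]; exact D.O.add_mem hz hz)
  rcases he with rfl | rfl
  · have h3 := D.P_div p h⁻¹ hp ⟨z, hz, hpx⟩ (by rw [D.L_inv, h2])
    have h4 := D.P_mem _ h3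
    rw [D.x_conj_P hp, D.e_inv, h1, hpx] at h4
    have e1 : (2 : ℂ) * D.al ^ (1 : ℤ) * z = D.al ^ (- -((1 : ℕ) : ℤ)) * (2 * z) := by
      simp
      ring
    rw [e1]
    exact h4
  · have h3 := D.P_div p h hp ⟨z, hz, hpx⟩ (by rw [h2])
    have h4 := D.P_mem _ h3
    rw [D.x_conj_P hp, h1, hpx] at h4
    have e1 : (2 : ℂ) * D.al ^ (-1 : ℤ) * z = D.al ^ (-((1 : ℕ) : ℤ)) * (2 * z) := by
      simp
      ring
    rw [e1]
    exact h4

theorem two_al_mem (m : ℤ) {z : ℂ} (hz : z ∈ D.O) : (2 : ℂ) ^ m.natAbs * D.al ^ m * z ∈ D.O := by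
  have key : ∀ (s : ℤ), (s = 1 ∨ s = -1) → ∀ k : ℕ,
      (2 : ℂ) ^ k * D.al ^ (s * k) * z ∈ D.O := by
    intro s hs k
    induction k with
    | zero => simpa using hz
    | succ k ih =>
      have h1 := D.two_al_step hs ih
      have e1 : (2 : ℂ) ^ (k + 1) * D.al ^ (s * ((k + 1 : ℕ) : ℤ)) * z =
          2 * D.al ^ s * (2 ^ k * D.al ^ (s * (k : ℤ)) * z) := by
        rw [Nat.cast_succ, mul_add, mul_one, zpow_add₀ D.al_ne_zero, pow_succ]
        ring
      rw [e1]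
      exact h1
  rcases le_total 0 m with h | h
  · have := key 1 (Or.inl rfl) m.natAbs
    rwa [one_mul, Int.natAbs_of_nonneg h] at this
  · have := key (-1) (Or.inr rfl) m.natAbs
    have e1 : (-1 : ℤ) * (m.natAbs : ℤ) = m := by omega
    rwa [e1] at this

theorem nat_mul_mem (n : ℕ) {z : ℂ} (hz : z ∈ D.O) : (n : ℂ) * z ∈ D.O := by
  have := D.O.nsmul_mem hz n
  rwa [nsmul_eq_mul] at this

/-- (d) of the blueprint: `p` with translation divisible by `2 ^ r` is conjugated into `P` by every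
path of heights `< r`. -/
theorem conj_path (r : ℕ) {p : H} (hp : D.L p = 0) (hd : ∃ z ∈ D.O, D.x p = 2 ^ r * z)
    (l : List H) (hl : ∀ s ∈ l, D.L s ≤ 1) (hh : ∀ t < l.length, |D.e (l.take t).prod| < r) :
    D.L (l.prod⁻¹ * p * l.prod) = 0 := by
  obtain ⟨z, hz, hpz⟩ := hd
  have key : ∀ t ≤ l.length, D.L ((l.take t).prod⁻¹ * p * (l.take t).prod) = 0 := by
    intro t
    induction t with
    | zero => intro _; simpa using hp
    | succ t ih =>
      intro ht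
      have ht' : t < l.length := by omega
      have h1 := ih ht'.le
      have h2 := hh t ht'
      set g := (l.take t).prod with hg
      have h3 : (l.take (t + 1)).prod = g * l[t] := by
        rw [List.take_succ_eq_append_getElem ht', List.prod_append, List.prod_singleton]
      have h4 : (g * l[t])⁻¹ * p * (g * l[t]) = (l[t])⁻¹ * (g⁻¹ * p * g) * l[t] := by group
      rw [h3, h4]
      refine D.P_div _ _ h1 ?_ (hl _ (List.getElem_mem ht'))
      have h5 : (D.e g).natAbs < r := by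
        rw [Int.abs_eq_natAbs] at h2
        omega
      refine ⟨((2 ^ (r - 1 - (D.e g).natAbs) : ℕ) : ℂ) *
        (2 ^ (-(D.e g)).natAbs * D.al ^ (-(D.e g)) * z),
        D.nat_mul_mem _ (D.two_al_mem _ hz), ?_⟩
      rw [D.x_conj_P hp, hpz, Int.natAbs_neg]
      have h6 : (2 : ℂ) ^ r = 2 * (2 ^ (r - 1 - (D.e g).natAbs) * 2 ^ (D.e g).natAbs) := by
        rw [← pow_add, ← pow_succ']
        congr 1
        omega
      rw [h6]
      push_cast
      ring
  have := key l.length le_rfl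
  rwa [List.take_length] at this

/-- classes modulo `2 ^ r` -/
theorem exists_class (r : ℕ) : ∃ (F : Finset ℂ) (c : ℂ → ℂ), ∀ z ∈ D.O, c z ∈ F ∧
    ∃ o ∈ D.O, z - c z = 2 ^ r * o := by
  choose o ho hoz using fun z : ℂ => D.O_cover (z / 2 ^ r)
  refine ⟨(D.O_fin (2 ^ r * 2)).toFinset, fun z => z - 2 ^ r * o z, fun z hz => ⟨?_, o z, ho z,
    by ring⟩⟩
  rw [Set.Finite.mem_toFinset]
  refine ⟨D.O.sub_mem hz ?_, ?_⟩
  · have := D.nat_mul_mem (2 ^ r) (ho z)
    push_cast at this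
    exact this
  · have h2 : (2 : ℂ) ^ r ≠ 0 := pow_ne_zero _ two_ne_zero
    have h1 : z - 2 ^ r * o z = 2 ^ r * (z / 2 ^ r - o z) := by
      field_simp
    change ‖z - 2 ^ r * o z‖ ≤ 2 ^ r * 2
    rw [h1, norm_mul, norm_pow, Complex.norm_two]
    exact mul_le_mul_of_nonneg_left (hoz z) (by positivity)

theorem pow_bound {m : ℕ} {p g : H} (hp : D.L p = 0) (hp1 : p ≠ 1) (he : D.e g = m)
    (h : D.L (g⁻¹ * p * g) = 0) : (2 : ℝ) ^ m ≤ ‖D.x p‖ ^ 2 := by
  refine D.O_int m (D.x p) (D.P_mem p hp) ?_ ?_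
  · have := D.P_mem _ h
    rwa [D.x_conj_P hp, he] at this
  · intro h0
    exact hp1 (D.P_inj p hp h0)

/-- properness -/
theorem finite_ball (R : ℝ) : {g : H | D.N g ≤ R}.Finite := by
  classical
  obtain ⟨S, hS⟩ := D.ball_fin ⌊R⌋₊
  obtain ⟨M, hM⟩ : ∃ M : ℝ, ∀ s ∈ S, ‖D.x s‖ ≤ M := by
    obtain ⟨M, hM⟩ := (S.finite_toSet.image (fun s => ‖D.x s‖)).bddAbove
    exact ⟨M, fun s hs => hM ⟨s, hs, rfl⟩⟩
  have hP : {p : H | D.L p = 0 ∧ ‖D.x p‖ ≤ R + M}.Finite := by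
    refine Set.Finite.of_finite_image (f := D.x) ((D.O_fin (R + M)).subset ?_) ?_
    · rintro _ ⟨p, ⟨hp, hp2⟩, rfl⟩
      exact ⟨D.P_mem p hp, hp2⟩
    · rintro p ⟨hp, -⟩ q ⟨hq, -⟩ hpq
      exact D.P_ext hp hq hpq
  refine (Set.Finite.image2 (fun a b => a * b) S.finite_toSet hP).subset ?_
  intro g hg
  have hg' : D.N g ≤ R := hg
  have hL : D.L g ≤ ⌊R⌋₊ := Nat.le_floor ((D.L_le_N g).trans hg')
  obtain ⟨s, hs, hsg⟩ := hS g hL
  refine ⟨s, hs, s⁻¹ * g, ⟨hsg, ?_⟩, mul_inv_cancel_left s g⟩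
  rw [D.x_inv_mul, norm_mul, D.norm_al_zpow, one_mul]
  refine (norm_sub_le _ _).trans ?_
  have h1 := D.norm_x_le_N g
  have h2 := hM s hs
  linarith

/-- finitely many tree vertices at distance `≤ R` -/
theorem finite_vertices (R : ℕ) : ∃ (F : Finset H) (c : H → H), ∀ g, D.L g ≤ R → c g ∈ F ∧
    D.L ((c g)⁻¹ * g) = 0 := by
  classical
  obtain ⟨S, hS⟩ := D.ball_fin R
  refine ⟨S, fun g => if h : ∃ s ∈ S, D.L (s⁻¹ * g) = 0 then h.choose else 1, fun g hg => ?_⟩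
  have h := hS g hg
  simp only [h, dif_pos]
  exact h.choose_spec

end Geo

end H57.QI
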