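import Mathlib
import Pool.Agent.Lib_helper57.QI.Defs

/-!
# Module A : the group `F₂ × ℤ²` is automatic
-/

set_option autoImplicit false

namespace H57.QI

namespace ModA

/-! ## Padded pairs -/

/-- padded pair of two words -/
def pad {α β : Type} (u : List α) (v : List β) : List (Option α × Option β) :=
  (u.map some ++ List.replicate (v.length - u.length) none).zip
    (v.map some ++ List.replicate (u.length - v.length) none)

section pad

variable {α β : Type}

@[simp] lemma pad_nil_nil : pad ([] : List α) ([] : List β) = [] := by simp [pad]

@[simp] lemma pad_cons_cons (a : α) (b : β) (u : List α) (v : List β) :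
    pad (a :: u) (b :: v) = (some a, some b) :: pad u v := by simp [pad]

@[simp] lemma pad_nil_cons (b : β) (v : List β) :
    pad ([] : List α) (b :: v) = (none, some b) :: pad [] v := by
  simp [pad, List.replicate_succ]

@[simp] lemma pad_cons_nil (a : α) (u : List α) :
    pad (a :: u) ([] : List β) = (some a, none) :: pad u [] := by
  simp [pad, List.replicate_succ]

lemma fst_pad (u : List α) (v : List β) : (pad u v).filterMap Prod.fst = u := by
  induction u generalizing v with
  | nil =>
    induction v with
    | nil => simp
    | cons b v ih => simpa using ih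
  | cons a u ih =>
    cases v with
    | nil => simp [ih]
    | cons b v => simp [ih]

lemma snd_pad (u : List α) (v : List β) : (pad u v).filterMap Prod.snd = v := by
  induction u generalizing v with
  | nil =>
    induction v with
    | nil => simp
    | cons b v ih => simpa using ih
  | cons a u ih =>
    cases v with
    | nil => simp [ih]
    | cons b v => simp [ih]

lemma take_pad (u : List α) (v : List β) (t : ℕ) :
    (pad u v).take t = pad (u.take t) (v.take t) := by
  induction t generalizing u v with
  | zero => simp
  | succ t ih =>
    cases u with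
    | nil =>
      cases v with
      | nil => simp
      | cons b v =>
        have := ih [] v
        simpa using this
    | cons a u =>
      cases v with
      | nil =>
        have := ih u []
        simpa using this
      | cons b v => simp [ih]

lemma fst_some (a : α) (b : Option β) (p : List (Option α × Option β)) :
    ((some a, b) :: p).filterMap Prod.fst = a :: p.filterMap Prod.fst := rfl

lemma fst_none (b : Option β) (p : List (Option α × Option β)) :
    ((none, b) :: p).filterMap Prod.fst = p.filterMap Prod.fst := rfl

lemma snd_some (a : Option α) (b : β) (p : List (Option α × Option β)) :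
    ((a, some b) :: p).filterMap Prod.snd = b :: p.filterMap Prod.snd := rfl

lemma snd_none (a : Option α) (p : List (Option α × Option β)) :
    ((a, none) :: p).filterMap Prod.snd = p.filterMap Prod.snd := rfl

/-- the padded pair of the components of a list of pairs -/
abbrev IsPad (p : List (Option α × Option β)) : Prop :=
  p = pad (p.filterMap Prod.fst) (p.filterMap Prod.snd)

lemma isPad_pad (u : List α) (v : List β) : IsPad (pad u v) := by
  rw [IsPad, fst_pad, snd_pad]

/-- the validity automaton -/
def vstep : Option (Bool × Bool) → Option α × Option β → Option (Bool × Bool)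
  | some (false, false), (some _, some _) => some (false, false)
  | some (false, _), (some _, none) => some (false, true)
  | some (_, false), (none, some _) => some (true, false)
  | _, _ => none

lemma foldl_vstep_none (p : List (Option α × Option β)) : p.foldl vstep none = none := by
  induction p with
  | nil => rfl
  | cons x p ih => simpa [vstep] using ih

lemma vstep_iff (p : List (Option α × Option β)) (fu fv : Bool) :
    p.foldl vstep (some (fu, fv)) ≠ none ↔
      IsPad p ∧ (fu = true → p.filterMap Prod.fst = []) ∧
        (fv = true → p.filterMap Prod.snd = []) := by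
  induction p generalizing fu fv with
  | nil => simp [IsPad]
  | cons x p ih =>
    obtain ⟨a, b⟩ := x
    cases a with
    | none =>
      cases b with
      | none =>
        have h1 : vstep (some (fu, fv)) ((none, none) : Option α × Option β) = none := by
          cases fu <;> cases fv <;> rfl
        rw [List.foldl_cons, h1, foldl_vstep_none]
        simp only [ne_eq, not_true_eq_false, false_iff]
        rintro ⟨h, -⟩
        rw [IsPad] at h
        simp only [List.filterMap_cons_none] at h
        generalize p.filterMap Prod.fst = u at h
        generalize p.filterMap Prod.snd = v at h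
        cases u <;> cases v <;> simp at h
      | some b =>
        rw [List.foldl_cons]
        cases fv with
        | true =>
          have h1 : vstep (some (fu, true)) ((none, some b) : Option α × Option β) = none := by
            cases fu <;> rfl
          rw [h1, foldl_vstep_none]
          simp
        | false =>
          have h1 : vstep (some (fu, false)) ((none, some b) : Option α × Option β) =
              some (true, false) := by
            cases fu <;> rfl
          rw [h1, ih]
          simp only [IsPad, forall_const, Bool.false_eq_true, false_implies, and_true]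
          rw [fst_none, snd_some]
          cases hU : p.filterMap Prod.fst with
          | nil => simp
          | cons a' u' => simp
    | some a =>
      cases b with
      | none =>
        rw [List.foldl_cons]
        cases fu with
        | true =>
          have h1 : vstep (some (true, fv)) ((some a, none) : Option α × Option β) = none := by
            cases fv <;> rfl
          rw [h1, foldl_vstep_none]
          simp
        | false =>
          have h1 : vstep (some (false, fv)) ((some a, none) : Option α × Option β) =
              some (false, true) := by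
            cases fv <;> rfl
          rw [h1, ih]
          simp only [IsPad, forall_const, Bool.false_eq_true, false_implies, true_and]
          rw [fst_some, snd_none]
          cases hV : p.filterMap Prod.snd with
          | nil => simp
          | cons b' v' => simp
      | some b =>
        rw [List.foldl_cons]
        cases fu with
        | true =>
          have h1 : vstep (some (true, fv)) ((some a, some b) : Option α × Option β) = none := by
            cases fv <;> rfl
          rw [h1, foldl_vstep_none]
          simp
        | false =>
          cases fv with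
          | true =>
            have h1 : vstep (some (false, true)) ((some a, some b) : Option α × Option β) =
              none := rfl
            rw [h1, foldl_vstep_none]
            simp
          | false =>
            have h1 : vstep (some (false, false)) ((some a, some b) : Option α × Option β) =
              some (false, false) := rfl
            rw [h1, ih]
            simp only [IsPad, Bool.false_eq_true, false_implies, and_true]
            rw [fst_some, snd_some]
            simp

end pad

/-! ## Regular languages -/

lemma reg_run {X S : Type} [Fintype S] (f : List X → S) (step : S → X → S)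
    (h : ∀ w x, f (w ++ [x]) = step (f w) x) (A : Set S) (L : Language X)
    (hL : ∀ w, w ∈ L ↔ f w ∈ A) : L.IsRegular := by
  refine ⟨S, inferInstance, ⟨step, f [], A⟩, ?_⟩
  have key : ∀ w, (DFA.mk step (f []) A).eval w = f w := by
    intro w
    induction w using List.reverseRecOn with
    | nil => rfl
    | append_singleton w x ih => rw [DFA.eval_append_singleton, ih, h]
  ext w
  rw [DFA.mem_accepts, key, hL]

lemma reg_isPad {α β : Type} : Language.IsRegular
    ({p | IsPad p} : Language (Option α × Option β)) := by
  refine reg_run (fun p => p.foldl vstep (some (false, false))) vstep ?_ {x | x ≠ none} _ ?_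
  · intro w x
    simp
  · intro w
    have := vstep_iff w false false
    simp only [Bool.false_eq_true, false_implies, and_true] at this
    exact this.symm

lemma reg_filterMap {X Y : Type} (f : X → Option Y) (L : Language Y) (hL : L.IsRegular) :
    Language.IsRegular ({p | p.filterMap f ∈ L} : Language X) := by
  obtain ⟨S, hS, M, rfl⟩ := hL
  refine reg_run (fun p => M.eval (p.filterMap f))
    (fun s x => ((f x).map (M.step s)).getD s) ?_ M.accept _ ?_
  · intro w x
    cases hx : f x with
    | none => simp [List.filterMap_append, hx]
    | some y => simp [List.filterMap_append, hx, DFA.eval_append_singleton]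
  · intro w
    exact Iff.rfl

lemma reg_chain {X : Type} [Fintype X] (R : X → X → Prop) :
    Language.IsRegular ({w | List.IsChain R w} : Language X) := by
  classical
  refine reg_run (fun w => if List.IsChain R w then some w.getLast? else none)
    (fun s x => match s with
      | none => none
      | some o => if ∀ y ∈ o, R y x then some (some x) else none) ?_ {s | s ≠ none} _ ?_
  · intro w x
    by_cases hw : List.IsChain R w
    · simp only [hw, if_true]
      by_cases h2 : ∀ y ∈ w.getLast?, R y x
      · have h3 : List.IsChain R (w ++ [x]) := by
          rw [List.isChain_append]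
          exact ⟨hw, List.isChain_singleton x, by simpa using h2⟩
        rw [if_pos h3, if_pos h2]
        simp
      · have h3 : ¬ List.IsChain R (w ++ [x]) := by
          rw [List.isChain_append]
          rintro ⟨-, -, h4⟩
          exact h2 (by simpa using h4)
        rw [if_neg h3, if_neg h2]
    · have h3 : ¬ List.IsChain R (w ++ [x]) := by
        rw [List.isChain_append]
        rintro ⟨h4, -⟩
        exact hw h4
      simp only [hw, h3, if_false]
  · intro w
    change List.IsChain R w ↔ (if List.IsChain R w then some w.getLast? else none) ≠ none
    by_cases hw : List.IsChain R w <;> simp [hw]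

/-! ## Fellow travelling structures -/

/-- the difference of the two components of a list of pairs -/
def df {G α : Type} [Group G] (μ : α → G) (p : List (Option α × Option α)) : G :=
  (((p.filterMap Prod.fst).map μ).prod)⁻¹ * ((p.filterMap Prod.snd).map μ).prod

lemma df_append {G α : Type} [Group G] (μ : α → G) (p : List (Option α × Option α))
    (x : Option α × Option α) :
    df μ (p ++ [x]) = ((x.1.map μ).getD 1)⁻¹ * df μ p * (x.2.map μ).getD 1 := by
  obtain ⟨a, b⟩ := x
  cases a <;> cases b <;> simp [df, List.filterMap_append, mul_assoc]

lemma reg_df {G α : Type} [Group G] (μ : α → G) (D : Set G) (hD : D.Finite) (g : G) :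
    Language.IsRegular ({p | (∀ q, q <+: p → df μ q ∈ D) ∧ df μ p = g} :
      Language (Option α × Option α)) := by
  classical
  have : Fintype D := hD.fintype
  refine reg_run (S := Option D)
    (fun p => if h : ∀ q, q <+: p → df μ q ∈ D then some ⟨df μ p, h p (List.prefix_refl p)⟩
      else none)
    (fun s x => match s with
      | none => none
      | some o => if h : ((x.1.map μ).getD 1)⁻¹ * o.1 * (x.2.map μ).getD 1 ∈ D then
          some ⟨_, h⟩ else none) ?_ {s | ∃ h : g ∈ D, s = some ⟨g, h⟩} _ ?_
  · intro p x
    by_cases hp : ∀ q, q <+: p → df μ q ∈ D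
    · rw [dif_pos hp]
      by_cases h2 : df μ (p ++ [x]) ∈ D
      · have h3 : ∀ q, q <+: p ++ [x] → df μ q ∈ D := by
          intro q hq
          rcases List.prefix_concat_iff.1 hq with h | h
          · rw [h]; exact h2
          · exact hp q h
        rw [dif_pos h3]
        have h4 := h2
        rw [df_append] at h4
        simp only [h4, dif_pos, Option.some.injEq, Subtype.mk.injEq]
        exact df_append μ p x
      · have h3 : ¬ ∀ q, q <+: p ++ [x] → df μ q ∈ D := fun h => h2 (h _ (List.prefix_refl _))
        rw [dif_neg h3]
        rw [df_append] at h2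
        simp only [h2, dif_neg, not_false_eq_true]
    · have h3 : ¬ ∀ q, q <+: p ++ [x] → df μ q ∈ D := fun h => hp
        (fun q hq => h q (hq.trans (List.prefix_append _ _)))
      rw [dif_neg h3, dif_neg hp]
  · intro p
    change ((∀ q, q <+: p → df μ q ∈ D) ∧ df μ p = g) ↔
      ∃ h : g ∈ D, (if h : ∀ q, q <+: p → df μ q ∈ D then
        some (⟨df μ p, h p (List.prefix_refl p)⟩ : D) else none) = some ⟨g, h⟩
    constructor
    · rintro ⟨h, rfl⟩
      exact ⟨h p (List.prefix_refl p), by rw [dif_pos h]⟩
    · rintro ⟨hg, h⟩
      split_ifs at h with h5
      simp only [Option.some.injEq, Subtype.mk.injEq] at h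
      exact ⟨h5, h⟩

/-- fellow travelling structure -/
def IsFT (G : Type) [Group G] : Prop :=
  ∃ (α : Type) (_ : Fintype α) (μ : α → G) (W : Language α) (D : Set G), W.IsRegular ∧ D.Finite ∧
    (∀ g : G, ∃ w : List α, w ∈ W ∧ (w.map μ).prod = g) ∧
    ∀ (x : Option α) (u v : List α), u ∈ W → v ∈ W →
      (u.map μ).prod * (x.map μ).getD 1 = (v.map μ).prod →
      ∀ t : ℕ, (((u.take t).map μ).prod)⁻¹ * ((v.take t).map μ).prod ∈ D

lemma reg_padL {α β : Type} {W : Language α} {V : Language β} (hW : W.IsRegular)
    (hV : V.IsRegular) : Language.IsRegular
      ({p | IsPad p ∧ p.filterMap Prod.fst ∈ W ∧ p.filterMap Prod.snd ∈ V} :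
        Language (Option α × Option β)) := by
  have h := (reg_isPad (α := α) (β := β)).inf
    ((reg_filterMap (Prod.fst : Option α × Option β → Option α) W hW).inf
      (reg_filterMap (Prod.snd : Option α × Option β → Option β) V hV))
  exact h

lemma IsFT.isAut {G : Type} [Group G] (h : IsFT G) : IsAut G := by
  obtain ⟨α, hα, μ, W, D, hW, hD, hs, hft⟩ := h
  obtain ⟨σ, hσ, M, rfl⟩ := hW
  refine ⟨α, hα, μ, σ, hσ, M, hs, fun x => ?_⟩
  have hreg := (reg_padL (W := M.accepts) (V := M.accepts) ⟨σ, hσ, M, rfl⟩
    ⟨σ, hσ, M, rfl⟩).inf (reg_df μ D hD ((x.map μ).getD 1))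
  obtain ⟨τ, hτ, N, hN⟩ := hreg
  refine ⟨τ, hτ, N, fun p => ?_⟩
  rw [hN]
  change ((IsPad p ∧ p.filterMap Prod.fst ∈ M.accepts ∧ p.filterMap Prod.snd ∈ M.accepts) ∧
    ((∀ q, q <+: p → df μ q ∈ D) ∧ df μ p = (x.map μ).getD 1)) ↔ _
  constructor
  · rintro ⟨⟨h1, h2, h3⟩, -, h4⟩
    refine ⟨_, _, h2, h3, h1, ?_⟩
    rw [← h4, df]
    group
  · rintro ⟨u, v, hu, hv, hp, hx⟩
    change p = pad u v at hp
    subst hp
    refine ⟨⟨isPad_pad u v, ?_, ?_⟩, ?_, ?_⟩
    · rwa [fst_pad]
    · rwa [snd_pad]
    · intro q hq
      rw [List.prefix_iff_eq_take, take_pad] at hq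
      rw [hq, df, fst_pad, snd_pad]
      exact hft x u v hu hv hx _
    · rw [df, fst_pad, snd_pad, ← hx]
      group

lemma IsFT.congr {G H : Type} [Group G] [Group H] (e : G ≃* H) (h : IsFT G) : IsFT H := by
  obtain ⟨α, hα, μ, W, D, hW, hD, hs, hft⟩ := h
  have key : ∀ w : List α, (w.map (fun a => e (μ a))).prod = e (w.map μ).prod := by
    intro w
    rw [map_list_prod, List.map_map]
    rfl
  refine ⟨α, hα, fun a => e (μ a), W, e '' D, hW, hD.image _, fun g => ?_, ?_⟩
  · obtain ⟨w, hw, hg⟩ := hs (e.symm g)
    exact ⟨w, hw, by rw [key, hg]; simp⟩
  · intro x u v hu hv hx t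
    refine ⟨_, hft x u v hu hv ?_ t, ?_⟩
    · apply e.injective
      rw [key, key] at hx
      rw [map_mul, ← hx]
      cases x <;> simp
    · rw [key, key]
      simp

lemma prod_pair {G H α β : Type} [Group G] [Group H] (μ : α → G) (ν : β → H)
    (p : List (Option α × Option β)) :
    (p.map (fun x => (((x.1.map μ).getD 1, (x.2.map ν).getD 1) : G × H))).prod =
      (((p.filterMap Prod.fst).map μ).prod, ((p.filterMap Prod.snd).map ν).prod) := by
  induction p with
  | nil => rfl
  | cons x p ih =>
    obtain ⟨a, b⟩ := x
    rw [List.map_cons, List.prod_cons, ih]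
    cases a <;> cases b <;> simp

lemma IsFT.prod {G H : Type} [Group G] [Group H] (hG : IsFT G) (hH : IsFT H) : IsFT (G × H) := by
  classical
  obtain ⟨α, hα, μ, W, D, hW, hD, hs, hft⟩ := hG
  obtain ⟨β, hβ, ν, V, E, hV, hE, hs', hft'⟩ := hH
  refine ⟨Option α × Option β, inferInstance,
    fun x => ((x.1.map μ).getD 1, (x.2.map ν).getD 1),
    {p | IsPad p ∧ p.filterMap Prod.fst ∈ W ∧ p.filterMap Prod.snd ∈ V}, D ×ˢ E,
    reg_padL hW hV, hD.prod hE, ?_, ?_⟩
  · rintro ⟨g, h⟩
    obtain ⟨u, hu, hg⟩ := hs g
    obtain ⟨v, hv, hh⟩ := hs' h
    refine ⟨pad u v, ⟨isPad_pad u v, ?_, ?_⟩, ?_⟩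
    · rwa [fst_pad]
    · rwa [snd_pad]
    · rw [prod_pair, fst_pad, snd_pad, hg, hh]
  · rintro x p q ⟨hp, hp1, hp2⟩ ⟨hq, hq1, hq2⟩ hx t
    rw [prod_pair, prod_pair, Prod.ext_iff] at hx
    have e1 : p.take t = pad ((p.filterMap Prod.fst).take t) ((p.filterMap Prod.snd).take t) := by
      conv_lhs => rw [hp]
      exact take_pad _ _ _
    have e2 : q.take t = pad ((q.filterMap Prod.fst).take t) ((q.filterMap Prod.snd).take t) := by
      conv_lhs => rw [hq]
      exact take_pad _ _ _
    rw [prod_pair, prod_pair, e1, e2, fst_pad, snd_pad, fst_pad, snd_pad]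
    refine ⟨?_, ?_⟩
    · refine hft (x.bind Prod.fst) _ _ hp1 hq1 ?_ t
      have := hx.1
      cases x with
      | none => simpa using this
      | some x => simpa using this
    · refine hft' (x.bind Prod.snd) _ _ hp2 hq2 ?_ t
      have := hx.2
      cases x with
      | none => simpa using this
      | some x => simpa using this

/-! ## Free groups -/

section free

variable {γ : Type}

/-- value of a letter -/
def fl (y : γ × Bool) : FreeGroup γ := FreeGroup.mk [y]

lemma prod_fl (w : List (γ × Bool)) : (w.map fl).prod = FreeGroup.mk w := by
  induction w with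
  | nil => rfl
  | cons a w ih =>
    rw [List.map_cons, List.prod_cons, ih, fl, FreeGroup.mul_mk]
    rfl

lemma red_unique {u v : List (γ × Bool)} (hu : FreeGroup.IsReduced u)
    (hv : FreeGroup.IsReduced v) (h : FreeGroup.mk u = FreeGroup.mk v) : u = v := by
  classical
  have h1 := FreeGroup.reduce.sound h
  rw [hu.reduce_eq, hv.reduce_eq] at h1
  exact h1

lemma take_diff (u : List (γ × Bool)) (y : γ × Bool) (t : ℕ) :
    (FreeGroup.mk (u.take t))⁻¹ * FreeGroup.mk ((u ++ [y]).take t) = 1 ∨
    (FreeGroup.mk (u.take t))⁻¹ * FreeGroup.mk ((u ++ [y]).take t) = fl y := by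
  by_cases ht : t ≤ u.length
  · left
    rw [List.take_append_of_le_length ht, inv_mul_cancel]
  · right
    rw [List.take_of_length_le (by omega), List.take_of_length_le (by simp; omega),
      ← FreeGroup.mul_mk, fl, inv_mul_cancel_left]

lemma fl_inv (y : γ × Bool) : (fl y)⁻¹ = fl (y.1, !y.2) := by
  rw [fl, fl, FreeGroup.inv_mk]
  rfl

theorem isFT_free [Fintype γ] : IsFT (FreeGroup γ) := by
  classical
  refine ⟨γ × Bool, inferInstance, fl, {w | FreeGroup.IsReduced w},
    Set.range (fun o : Option (γ × Bool) => (o.map fl).getD 1), reg_chain _,
    Set.finite_range _, fun g => ⟨g.toWord, FreeGroup.isReduced_toWord, ?_⟩, ?_⟩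
  · rw [prod_fl, FreeGroup.mk_toWord]
  · intro x u v hu hv hx t
    rw [prod_fl, prod_fl] at hx
    rw [prod_fl, prod_fl]
    have hone : (1 : FreeGroup γ) ∈
      Set.range (fun o : Option (γ × Bool) => (o.map fl).getD 1) := ⟨none, rfl⟩
    have hfl : ∀ y : γ × Bool, fl y ∈
      Set.range (fun o : Option (γ × Bool) => (o.map fl).getD 1) := fun y => ⟨some y, rfl⟩
    cases x with
    | none =>
      simp only [Option.map_none, Option.getD_none, mul_one] at hx
      have := red_unique hu hv hx
      subst this
      rw [inv_mul_cancel]
      exact hone
    | some y =>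
      simp only [Option.map_some, Option.getD_some] at hx
      by_cases hr : FreeGroup.IsReduced (u ++ [y])
      · rw [fl, FreeGroup.mul_mk] at hx
        have := red_unique hr hv hx
        subst this
        rcases take_diff u y t with h | h
        · rw [h]; exact hone
        · rw [h]; exact hfl y
      · have h1 : ∃ z ∈ u.getLast?, ¬ (z.1 = y.1 → z.2 = y.2) := by
          by_contra hcon
          push Not at hcon
          apply hr
          rw [FreeGroup.IsReduced, List.isChain_append]
          refine ⟨hu, List.isChain_singleton _, ?_⟩
          intro z hz w hw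
          simp only [List.head?_cons, Option.mem_def, Option.some.injEq] at hw
          subst hw
          exact hcon z hz
        obtain ⟨z, hz, hzy⟩ := h1
        rw [Classical.not_imp] at hzy
        obtain ⟨hz1, hz2⟩ := hzy
        rw [Option.mem_def, List.getLast?_eq_some_iff] at hz
        obtain ⟨u', rfl⟩ := hz
        have hzz : fl y = (fl z)⁻¹ := by
          rw [fl_inv]
          congr 1
          apply Prod.ext
          · exact hz1.symm
          · revert hz2
            cases z.2 <;> cases y.2 <;> simp
        have hred : FreeGroup.IsReduced u' := (List.isChain_append.1 hu).1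
        rw [← FreeGroup.mul_mk, hzz, fl] at hx
        have hx2 : FreeGroup.mk u' = FreeGroup.mk v := by
          rw [← hx]
          group
        have := red_unique hred hv hx2
        subst this
        have h3 : (FreeGroup.mk ((u' ++ [z]).take t))⁻¹ * FreeGroup.mk (u'.take t) =
          ((FreeGroup.mk (u'.take t))⁻¹ * FreeGroup.mk ((u' ++ [z]).take t))⁻¹ := by group
        rw [h3]
        rcases take_diff u' z t with h | h
        · rw [h, inv_one]; exact hone
        · rw [h, ← hzz]; exact hfl y

end free

/-- the infinite cyclic group -/
noncomputable def freeUnit : FreeGroup Unit ≃* Multiplicative ℤ :=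
  MulEquiv.ofBijective (FreeGroup.lift (fun _ => Multiplicative.ofAdd (1 : ℤ))) (by
    constructor
    · intro x y h
      have h1 := FreeGroup.freeGroupUnitEquivInt.injective
      apply h1
      have key : ∀ z : FreeGroup Unit,
          FreeGroup.lift (fun _ => Multiplicative.ofAdd (1 : ℤ)) z =
            Multiplicative.ofAdd (FreeGroup.freeGroupUnitEquivInt z) := by
        intro z
        obtain ⟨n, rfl⟩ := FreeGroup.freeGroupUnitEquivInt.symm.surjective z
        rw [Equiv.apply_symm_apply]
        simp [FreeGroup.freeGroupUnitEquivInt, ← ofAdd_zsmul]
      rw [key, key] at h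
      exact Multiplicative.ofAdd.injective h
    · intro n
      refine ⟨FreeGroup.of () ^ (Multiplicative.toAdd n), ?_⟩
      simp [← ofAdd_zsmul])

theorem isFT_int : IsFT (Multiplicative ℤ) := (isFT_free (γ := Unit)).congr freeUnit

/-- `ℤ × ℤ` , written multiplicatively -/
def mulProd : Multiplicative ℤ × Multiplicative ℤ ≃* Multiplicative (ℤ × ℤ) where
  toFun p := Multiplicative.ofAdd (Multiplicative.toAdd p.1, Multiplicative.toAdd p.2)
  invFun q := (Multiplicative.ofAdd (Multiplicative.toAdd q).1,
    Multiplicative.ofAdd (Multiplicative.toAdd q).2)
  left_inv _ := rfl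
  right_inv _ := rfl
  map_mul' _ _ := rfl

end ModA

/-- **Module A** -/
theorem modA : IsAut (FreeGroup Bool × Multiplicative (ℤ × ℤ)) :=
  (ModA.isFT_free.prod ((ModA.isFT_int.prod ModA.isFT_int).congr ModA.mulProd)).isAut

end H57.QI
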